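import Pool.Agent.H11.KT.Targets

/-!
# Module K_BL of MP_0b603e_al: `Ps` is quadratic with the bilinear form `Bs`
-/

set_option autoImplicit false

open scoped commutatorElement

namespace Pool.Agent.H10.KT

open Pool.Agent.H11.EL Pool.Agent.H11.KT

private theorem cen_mul {G : Type} [Group G] {x y : G} (hx : ∀ g : G, x * g = g * x)
    (hy : ∀ g : G, y * g = g * y) : ∀ g : G, x * y * g = g * (x * y) := by
  intro g
  rw [mul_assoc, hy g, ← mul_assoc, hx g, mul_assoc]

private theorem one_conj {G : Type} [Group G] (t x u : G)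
    (h : ∀ g : G, ⁅t * x * t⁻¹, ⁅u, t⁆⁆ * g = g * ⁅t * x * t⁻¹, ⁅u, t⁆⁆) :
    ⁅x * u, t⁆ = ⁅x, t⁆ * ⁅u, t⁆ * ⁅t * x * t⁻¹, ⁅u, t⁆⁆ := by
  rw [mul_assoc, ← h ⁅u, t⁆]
  simp only [commutatorElement_def]
  group

theorem pf_BL : K_BL := by
  intro G _ M hM hc n t x u hx hu
  have key : Ps n t (fun i => x i * u i) = Ps n t x * Ps n t u * Bs n t x u ∧
      ∀ g : G, Bs n t x u * g = g * Bs n t x u := by
    induction n with
    | zero => simp
    | succ n ih =>
      obtain ⟨ih1, ih2⟩ := ih
      have h2 := hc _ (hM.conj_mem _ (hx n) (t n)) _ (comm_mem_left hM (hu n) (t n))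
      have h1 := one_conj (t n) (x n) (u n) h2
      have hT : Ps n t u ∈ M := Ps_mem hM (fun i _ => hu i)
      have ht : Px n t * ⁅x n, t n⁆ * (Px n t)⁻¹ ∈ M :=
        hM.conj_mem _ (comm_mem_left hM (hx n) (t n)) _
      have hD := hc _ hT _ ht
      rw [Ps_succ, Ps_succ, Ps_succ, Bs_succ, ih1, h1]
      generalize ⁅t n * x n * (t n)⁻¹, ⁅u n, t n⁆⁆ = e at *
      generalize Ps n t x = T at *
      generalize Ps n t u = T' at *
      generalize Bs n t x u = B at *
      generalize ⁅x n, t n⁆ = s at *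
      generalize ⁅u n, t n⁆ = s' at *
      generalize Px n t = c at *
      refine ⟨?_, cen_mul ih2 (cen_mul h2 hD)⟩
      have e1 : T' * (c * s * c⁻¹) = c * s * c⁻¹ * T' * ⁅T', c * s * c⁻¹⁆ := by
        rw [← hD]
        simp only [commutatorElement_def]
        group
      calc T * T' * B * (c * (s * s' * e) * c⁻¹)
          = T * T' * B * (c * (s * s') * (e * c⁻¹)) := by simp only [mul_assoc]
        _ = T * T' * (B * (c * (s * s') * c⁻¹)) * e := by
            rw [h2 c⁻¹]
            simp only [mul_assoc]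
        _ = T * (T' * (c * s * c⁻¹)) * (c * s' * c⁻¹) * (B * e) := by
            rw [ih2]
            group
        _ = T * (c * s * c⁻¹) * T' * (⁅T', c * s * c⁻¹⁆ * (c * s' * c⁻¹)) * (B * e) := by
            rw [e1]
            simp only [mul_assoc]
        _ = T * (c * s * c⁻¹) * (T' * (c * s' * c⁻¹)) * (⁅T', c * s * c⁻¹⁆ * (B * e)) := by
            rw [hD (c * s' * c⁻¹)]
            simp only [mul_assoc]
        _ = _ := by
            rw [hD (B * e)]
            simp only [mul_assoc]
  exact key.1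

end Pool.Agent.H10.KT
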